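import Pool.Agent.Helper18.LD10.PC
import Pool.Agent.Helper80.LD10.NUM10
import Pool.Agent.Helper8.LD10.Mask
import Pool.Agent.Helper80.LD8.NUM8
import Pool.Agent.Helper44.LD8.TT8b
import Pool.Agent.Helper4.LD8.NBB
import Pool.Agent.Helper52.LD7.STP

/-!
# Project LD10, block STP10: one block of a stage
-/

set_option autoImplicit false

namespace Pool.Agent.Helper52.LD10

open Set MeasureTheory Filter Topology
open Pool.Agent.Helper41.LD (av)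
open Pool.Agent.Helper41.LD4 (A M W Pot NB NBg)
open Pool.Agent.Helper41.LD6 (hr vr lv Qs vq lev Lv GQ Gr Wq)
open Pool.Agent.Helper41.LD7 (sp om)
open Pool.Agent.Helper78.LD8 (Pm Uf Tt)
open Pool.Agent.Helper78.LD10 (Is G lam Good)
open Pool.Agent.Helper18.LD10 (stage_PC10)
open Pool.Agent.Helper80.LD10 (num_om10)
open Pool.Agent.Helper80.LD8 (num_K num_Z num_ZK num_e num_E num_r)
open Pool.Agent.Helper44.LD8 (T_blk)
open Pool.Agent.Helper8.LD10 (G_meas G_bdd G_NB win)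
open Pool.Agent.Helper4.LD8 (stage_nb8)
open Pool.Agent.Helper17.LD7 (om_sum om_pos om_lo mu_sum)
open Pool.Agent.Helper4.LD6 (lev_mem lev_sum6 Qs_card vq_lo Qs_ne)
open Pool.Agent.Helper9.LD6 (step6)
open Pool.Agent.Helper52.LD6 (gain6)
open Pool.Agent.Helper52.LD7 (level_sum)

variable {F : Pm} {Q K : ℕ} {ℓst a ℓ : ℝ}

/-- the functionals of one level at one test time -/
lemma level_le (K : ℕ) (ℓst : ℝ) (t : ℕ → ℕ) {l : ℕ × (Fin (F.d + 1) → ℕ)} (hl : l ∈ Finset.range Q ×ˢ Lv F.d K) (x : ℝ) :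
    ∑ u ∈ Is F Q K with (u.1, lev u.2) = l, |G F Q K ℓst u (t u.1) x| ≤ 1 := by
  classical
  have hl1 := Finset.mem_product.1 hl
  have e0 : ∑ u ∈ Is F Q K with (u.1, lev u.2) = l, |G F Q K ℓst u (t u.1) x| =
      ∑ q ∈ Qs F.d K with lev q = l.2, |G F Q K ℓst (l.1, q) (t l.1) x| := by
    refine Finset.sum_bij (fun u _ => u.2) ?_ ?_ ?_ ?_
    · intro u hu
      obtain ⟨h1, h2⟩ := Finset.mem_filter.1 hu
      exact Finset.mem_filter.2 ⟨(Finset.mem_product.1 h1).2, by rw [← h2]⟩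
    · intro u hu u' hu' he
      obtain ⟨-, h2⟩ := Finset.mem_filter.1 hu
      obtain ⟨-, h2'⟩ := Finset.mem_filter.1 hu'
      have h3 : u.1 = l.1 := by rw [← h2]
      have h3' : u'.1 = l.1 := by rw [← h2']
      exact Prod.ext (h3.trans h3'.symm) he
    · intro q hq
      obtain ⟨h1, h2⟩ := Finset.mem_filter.1 hq
      exact ⟨(l.1, q), Finset.mem_filter.2 ⟨Finset.mem_product.2 ⟨hl1.1, h1⟩, by rw [h2]⟩, rfl⟩
    · intro u hu
      obtain ⟨-, h2⟩ := Finset.mem_filter.1 hu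
      have h3 : u.1 = l.1 := by rw [← h2]
      have h4 : (l.1, u.2) = u := Prod.ext h3.symm rfl
      rw [h3, h4]
  rw [e0]
  by_cases ht : t l.1 < 2 ^ (2 * K) ∧ (F.n₀ K ℓst + t l.1) % Q = l.1
  · have e1 : ∀ q, G F Q K ℓst (l.1, q) (t l.1) x = ∏ i : Fin (F.d + 1), hr (q i) (F.U K ℓst (t l.1 + i) x) := by
      intro q
      unfold G Pm.G GQ
      rw [if_pos ht.2, if_pos ht.1]
    rw [Finset.sum_congr rfl fun q _ => by rw [e1 q]]
    exact lev_sum6 l.2 fun i => F.U K ℓst (t l.1 + i) x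
  · have e1 : ∀ q, G F Q K ℓst (l.1, q) (t l.1) x = 0 := by
      intro q
      unfold G Pm.G GQ
      by_cases h2 : (F.n₀ K ℓst + t l.1) % Q = l.1
      · rw [if_pos h2, if_neg fun h => ht ⟨h, h2⟩]
      · rw [if_neg h2]
    rw [Finset.sum_congr rfl fun q _ => by rw [e1 q, abs_zero], Finset.sum_const_zero]
    exact zero_le_one

open Classical in
/-- STP10: one block of a stage -/
theorem stage_step10 (hF : F.Ok) (hK : F.Big K) (hK2 : F.Z * F.b K * K ≤ 2 ^ K) (hQ : 1 ≤ Q) (hQX : Q ≤ F.X) (hN : F.NR K) (hℓ : 0 < ℓ) (hst : ℓ ≤ ℓst)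
    (hst1 : ℓst ≤ 1) (hcount : F.T K ℓst (ℓ / 2 ^ F.b K) + F.r K ≤ 2 ^ (2 * K)) (hgood : Good F Q K ℓst a ℓ) :
    (1 / 2 : ℝ) ^ (3 * F.e K) * ((2 ^ F.b K : ℕ) : ℝ) ≤ (((Finset.range (2 ^ F.b K)).filter fun b : ℕ =>
      Good F Q K ℓst (a + b * (ℓ / (2 ^ F.b K : ℕ))) (ℓ / (2 ^ F.b K : ℕ))).card : ℝ) := by
  classical
  have hKbig := num_K hK
  obtain ⟨hZ1, nX, nd, -, -⟩ := num_Z F
  obtain ⟨hZK, hZ4⟩ := num_ZK hK
  obtain ⟨hE4, hEd, -⟩ := num_e F K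
  obtain ⟨hR2, -, -, -⟩ := num_r hF hK
  obtain ⟨-, hEE, -⟩ := num_E hF hK
  have hnom := num_om10 hK hQX
  obtain ⟨hb1, hb2⟩ := T_blk hF hK hℓ hst hst1
  have hX1 := hF.hX
  have hr1 : 1 ≤ F.r K := by
    unfold Pm.r
    exact Nat.mul_pos (by omega) hEE
  have hEdef : F.e K = 3 * K + K * (F.d + 1) := by unfold Pm.e; ring
  set E := F.e K with hE
  set Λ : ℕ := F.b K with hΛ
  have hE2 : 2 ≤ E := by omega
  have hE1 : 1 ≤ E := by omega
  have hBr : (((2 ^ Λ : ℕ)) : ℝ) = 2 ^ Λ := by push_cast; rfl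
  have hℓ2 : 0 < ℓ / 2 ^ Λ := by positivity
  have hℓeq : ℓ / ((2 ^ Λ : ℕ) : ℝ) = ℓ / 2 ^ Λ := by rw [hBr]
  set n : ℕ := F.T K ℓst ℓ with hn
  set L' : ℕ := F.T K ℓst (ℓ / 2 ^ Λ) - n with hL'
  have hnL : n + L' = F.T K ℓst (ℓ / 2 ^ Λ) := by omega
  obtain ⟨t, hPC⟩ := stage_PC10 hF hK hQX hN hℓ hst hst1 hcount a
  have hnb := stage_nb8 hF hK hℓ hst hst1 hcount a
  have hIs : ∀ u ∈ Is F Q K, u.1 < Q ∧ u.2 ∈ Qs F.d K := fun u hu =>
    ⟨Finset.mem_range.1 (Finset.mem_product.1 hu).1, (Finset.mem_product.1 hu).2⟩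
  -- the weights
  have hμ0 : ∀ u ∈ Is F Q K, (1 / 2 : ℝ) ^ E ≤ om Q K (lev u.2) ^ 2 * vq u.2 := by
    intro u hu
    have e1 := om_lo (d := F.d) hQ K (lev u.2)
    have e2 := (vq_lo (hIs u hu).2).1
    have e3 : ((Q : ℝ) * (2 * ((F.d : ℝ) + 1) * ((K : ℝ) + 1)) ^ (F.d + 1)) ≤ 2 ^ K := by exact_mod_cast hnom
    have hQr : (1 : ℝ) ≤ Q := by exact_mod_cast hQ
    have e4 : (1 / 2 : ℝ) ^ K ≤ om Q K (lev u.2) := by
      refine le_trans ?_ e1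
      rw [one_div_pow]
      exact one_div_le_one_div_of_le (by positivity) e3
    have e5 : ((1 / 2 : ℝ) ^ K) ^ 2 ≤ om Q K (lev u.2) ^ 2 := pow_le_pow_left₀ (by positivity) e4 2
    refine le_trans ?_ (mul_le_mul e5 e2 (by positivity) (by positivity))
    rw [hEdef, pow_add, ← pow_mul]
    refine mul_le_mul_of_nonneg_right ?_ (by positivity)
    exact pow_le_pow_of_le_one (by norm_num) (by norm_num) (by omega)
  have hv0 : ∀ u ∈ Is F Q K, 0 < vq u.2 := fun u hu => lt_of_lt_of_le (by positivity) (vq_lo (hIs u hu).2).1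
  have hv1 : ∀ u ∈ Is F Q K, vq u.2 ≤ 1 := fun u hu => (vq_lo (hIs u hu).2).2
  -- the gain
  have hgain : ∀ g : (ℕ × (Fin (F.d + 1) → ℕ)) → ℝ, 1 / 2 * (∑ u ∈ Is F Q K, |g u| * (om Q K (lev u.2) * vq u.2)) * ((2 ^ Λ : ℕ) : ℝ) ≤
      ∑ b ∈ Finset.range (2 ^ Λ), |∑ u ∈ Is F Q K, g u * (M (G F Q K ℓst u) (a + b * (ℓ / (2 ^ Λ : ℕ))) (ℓ / (2 ^ Λ : ℕ)) -
        M (G F Q K ℓst u) a ℓ)| := by
    intro g
    refine gain6 (Is F Q K) (Finset.range Q ×ˢ Lv F.d K) (fun u => (u.1, lev u.2)) (fun l => om Q K l.2)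
      (fun u hu => Finset.mem_product.2 ⟨Finset.mem_range.2 (hIs u hu).1, lev_mem (hIs u hu).2⟩)
      (fun l _ => (om_pos hQ K l.2).1.le) (om_sum hQ F.d K)
      Nat.one_le_two_pow (fun u b => M (G F Q K ℓst u) (a + b * (ℓ / (2 ^ Λ : ℕ))) (ℓ / (2 ^ Λ : ℕ)) - M (G F Q K ℓst u) a ℓ)
      (fun u b => A (G F Q K ℓst u) (t u.1) (a + b * (ℓ / (2 ^ Λ : ℕ))) (ℓ / (2 ^ Λ : ℕ))) (fun u => vq u.2) (η := (1 / 2) ^ (4 * E)) ?_ ?_ ?_ g
    · intro l hl b _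
      exact level_sum _ (fun u => G F Q K ℓst u (t u.1)) (fun u hu => G_meas K ℓst (Finset.mem_filter.1 hu).1 _)
        (fun u hu => G_bdd K ℓst (Finset.mem_filter.1 hu).1 _) (fun x => level_le K ℓst t hl x) _ (by rw [hℓeq]; exact hℓ2)
    · intro u hu u' hu'
      exact hPC u hu u' hu'
    · intro u hu
      have e1 := hμ0 u hu
      have e2 : om Q K (lev u.2) ^ 2 * vq u.2 ≤ om Q K (lev u.2) * vq u.2 := by
        refine mul_le_mul_of_nonneg_right ?_ (hv0 u hu).le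
        exact pow_le_of_le_one (om_pos hQ K (lev u.2)).1.le (om_pos hQ K (lev u.2)).2 two_ne_zero
      have e4 : (((Is F Q K).card : ℕ) : ℝ) ≤ 2 ^ E := by
        have e5 : (Is F Q K).card ≤ 2 ^ E := by
          have e6 : (Is F Q K).card = Q * (Qs F.d K).card := by
            unfold Is
            rw [Finset.card_product, Finset.card_range]
          rw [e6]
          have e7 : Q ≤ K := by omega
          calc Q * (Qs F.d K).card ≤ 2 ^ K * 2 ^ (K * (F.d + 1)) :=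
                Nat.mul_le_mul (e7.trans (Nat.lt_two_pow_self).le) (Qs_card F.d K)
            _ = 2 ^ (K + K * (F.d + 1)) := (pow_add _ _ _).symm
            _ ≤ 2 ^ E := Nat.pow_le_pow_right (by norm_num) (by omega)
        exact_mod_cast e5
      have e6 : (1 / 2 : ℝ) ^ (4 * E) * (((Is F Q K).card : ℕ) : ℝ) ≤ (1 / 2) ^ (4 * E) * 2 ^ E :=
        mul_le_mul_of_nonneg_left e4 (by positivity)
      have e7 : (1 / 2 : ℝ) ^ (4 * E) * 2 ^ E ≤ (1 / 2) ^ E / 2 := by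
        have e8 : (1 / 2 : ℝ) ^ E / 2 = (1 / 2) ^ (E + 1) := by rw [pow_succ]; ring
        have e9 : (1 / 2 : ℝ) ^ (4 * E) * 2 ^ E = (1 / 2) ^ (3 * E) := by
          rw [show 4 * E = 3 * E + E by ring, pow_add, mul_assoc, ← mul_pow]
          norm_num
        rw [e8, e9]
        exact pow_le_pow_of_le_one (by norm_num) (by norm_num) (by omega)
      show (1 / 2 : ℝ) ^ (4 * E) * (((Is F Q K).card : ℕ) : ℝ) ≤ om Q K (lev u.2) * vq u.2 / 2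
      linarith
  -- the abstract step
  have hlamc : ((F.X * Λ : ℕ) : ℝ) = F.X * (Λ : ℕ) := by push_cast; ring
  have hΛ1 : 1 ≤ Λ := by
    have h3 : 1 ≤ F.r K ^ 2 := Nat.pow_pos hr1
    omega
  have hKr : (1 : ℝ) ≤ K := by exact_mod_cast (by omega : 1 ≤ K)
  have hXr : (1 : ℝ) ≤ F.X := by exact_mod_cast hX1
  have hne : (Is F Q K).Nonempty := (Finset.nonempty_range_iff.2 (by omega)).product (Qs_ne (by omega))
  have hS := step6 (Is F Q K) hne (G := G F Q K ℓst) (w := fun u => 2 * vq u.2) (v := fun u => vq u.2) (ω := fun u => om Q K (lev u.2))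
    (η := (1 / 2) ^ (2 * E)) (H := 2 ^ (2 * K)) (n := n) (L' := L') (r := F.r K) (L := F.X * Λ) (B := 2 ^ Λ) (E := E) (a := a) (ℓ := ℓ)
    (lam := 1 / (16384 * ((F.X : ℝ) * (Λ : ℕ))))
    hE2 hr1 Nat.one_le_two_pow (fun _ _ => rfl) hv0 hv1 (fun u _ => (om_pos hQ K (lev u.2)).1) (fun u _ => (om_pos hQ K (lev u.2)).2) hμ0
    (mu_sum hQ F.d K)
    ⟨by omega, by omega⟩
    (by
      have : (F.r K) ^ 2 ≤ F.X * Λ := hR2.trans (Nat.le_mul_of_pos_left _ hX1)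
      exact_mod_cast this)
    (by
      rw [hlamc, one_div_mul_eq_div, div_self (by positivity)])
    (by
      rw [one_div_pow]
      refine one_div_le_one_div_of_le (by positivity) ?_
      have e1 : 16384 * (F.X * Λ) ≤ 2 ^ E := by
        calc 16384 * (F.X * Λ) ≤ K * (F.Z * Λ) :=
              Nat.mul_le_mul (by omega) (Nat.mul_le_mul_right _ (by omega))
          _ = F.Z * Λ * K := by ring
          _ ≤ 2 ^ K := hK2
          _ ≤ 2 ^ E := Nat.pow_le_pow_right (by norm_num) (by omega)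
      exact_mod_cast e1)
    (fun u hu => win hF hK hN hℓ hu a)
    (fun u hu b hb => by
      have h4 := win hF hK hN (ℓst := ℓst) (ℓ := ℓ / (2 ^ Λ : ℕ)) (by rw [hℓeq]; exact hℓ2) hu (a + b * (ℓ / (2 ^ Λ : ℕ)))
      rw [hnL]
      rw [hℓeq] at h4 ⊢
      exact h4)
    hgain (fun u hu => G_NB hu hgood.1) hgood.2
  -- good children
  have hsub : ((Finset.range (2 ^ Λ)).filter fun b : ℕ =>
      ∑ u ∈ Is F Q K, Pot (G F Q K ℓst u) (n + L') (F.r K) (1 / (16384 * ((F.X : ℝ) * (Λ : ℕ))) * om Q K (lev u.2)) (a + b * (ℓ / (2 ^ Λ : ℕ))) (ℓ / (2 ^ Λ : ℕ)) ≤ 16 ^ E) ⊆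
      ((Finset.range (2 ^ Λ)).filter fun b : ℕ => Good F Q K ℓst (a + b * (ℓ / (2 ^ Λ : ℕ))) (ℓ / (2 ^ Λ : ℕ))) ∪
      (Finset.range (2 ^ Λ)).filter fun b : ℕ => ¬ NBg (F.U K ℓst) (F.T K ℓst (ℓ / 2 ^ Λ) + F.d) (F.r K) (2 ^ K)
        (a + b * (ℓ / (2 ^ Λ : ℕ))) (ℓ / (2 ^ Λ : ℕ)) := by
    intro b hb
    rw [Finset.mem_filter] at hb
    obtain ⟨hb1, hb2⟩ := hb
    rw [Finset.mem_union, Finset.mem_filter, Finset.mem_filter]
    by_cases hnb : NBg (F.U K ℓst) (F.T K ℓst (ℓ / 2 ^ Λ) + F.d) (F.r K) (2 ^ K) (a + b * (ℓ / (2 ^ Λ : ℕ))) (ℓ / (2 ^ Λ : ℕ))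
    · left
      refine ⟨hb1, ?_⟩
      rw [hnL] at hb2
      rw [← hℓeq] at hnb hb2
      exact ⟨hnb, hb2⟩
    · exact Or.inr ⟨hb1, hnb⟩
  have hcard := (Finset.card_le_card hsub).trans (Finset.card_union_le _ _)
  have hcard' := (Nat.cast_le (α := ℝ)).2 hcard
  rw [Nat.cast_add] at hcard'
  have hS2 := hS.trans hcard'
  have h3 : (1 / 2 : ℝ) ^ (3 * E) * ((2 ^ Λ : ℕ) : ℝ) + (1 / 2 : ℝ) ^ (3 * E) * ((2 ^ Λ : ℕ) : ℝ) =
      2 * (1 / 2 : ℝ) ^ (3 * E) * ((2 ^ Λ : ℕ) : ℝ) := by ring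
  linarith

end Pool.Agent.Helper52.LD10
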